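import Pool.Agent.P.MP_d9fb17_nt.CAll

/-! The weighted partial sums of the Moebius function of the triangular divisibility order
diverge logarithmically to minus infinity. -/

namespace Pool.Agent.Results.MP_d9fb17_nt.Divergence

open Finset Filter Topology

theorem result (μ : ℕ → ℤ) (h1 : μ 1 = 1)
    (hrec : ∀ n, 2 ≤ n →
      μ n = -∑ d ∈ (Ico 1 n).filter (fun d => d * (d + 1) ∣ n * (n + 1)), μ d) :
    (∃ c B : ℝ, 0 < c ∧ Tendsto (fun n : ℕ => ∑ i ∈ Icc 1 n, (μ i : ℝ) / i + c * Real.log n)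
      atTop (𝓝 B)) ∧
    Tendsto (fun n : ℕ => ∑ i ∈ Icc 1 n, (μ i : ℝ) / i) atTop atBot ∧
    ¬ ∃ E : ℝ, 0 < E ∧ Tendsto (fun n : ℕ => ∑ i ∈ Icc 1 n, (μ i : ℝ) / i) atTop (𝓝 (-E)) := by
  obtain ⟨hs, B, hB⟩ :=
    Pool.Agent.P.MP_d9fb17_nt.main (fun n => (μ n : ℝ)) (by simp [h1]) fun n hn => by
      rw [hrec n hn]
      push_cast
      rfl
  have hc := lt_of_lt_of_le (by norm_num : (0 : ℝ) < 1 / 200)
    (Pool.Agent.P.MP_d9fb17_nt.comp.pos h1 hrec hs)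
  have h2 := hB.add_atBot (tendsto_neg_atTop_atBot.comp
    ((Real.tendsto_log_atTop.comp tendsto_natCast_atTop_atTop).const_mul_atTop hc))
  simp only [Function.comp, add_neg_cancel_right] at h2
  exact ⟨⟨_, B, hc, hB⟩, h2, fun ⟨E, _, h⟩ => not_tendsto_nhds_of_tendsto_atBot h2 _ h⟩

end Pool.Agent.Results.MP_d9fb17_nt.Divergence
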