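import Pool.Agent.P.MP_d9fb17_nt.Near
import Pool.Agent.P.MP_d9fb17_nt.Pointwise

/-! Subpolynomial growth of the Moebius function of the triangular divisibility order. -/

namespace Pool.Agent.Results.MP_d9fb17_nt.PointwiseBound

open Finset

theorem result (μ : ℕ → ℤ)
    (hrec : ∀ n, 2 ≤ n →
      μ n = -∑ d ∈ (Ico 1 n).filter (fun d => d * (d + 1) ∣ n * (n + 1)), μ d)
    (ε : ℝ) (hε : 0 < ε) : ∃ A : ℝ, ∀ n : ℕ, 1 ≤ n → |(μ n : ℝ)| ≤ A * (n : ℝ) ^ ε := by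
  obtain ⟨A, hA, h⟩ := Pool.Agent.P.MP_d9fb17_nt.mu_bound (fun n => (μ n : ℝ)) (θ := ε / 2)
    (fun n hn => by
      rw [hrec n hn]
      push_cast
      rw [abs_neg]
      exact Finset.abs_sum_le_sum_abs _ _) (by positivity)
  refine ⟨A * 2 ^ (ε / 2), fun n hn => (h n hn).trans ?_⟩
  have hn0 : (0 : ℝ) < n := by exact_mod_cast hn
  have h2 := Real.rpow_le_rpow (by positivity) (Pool.Agent.P.MP_d9fb17_nt.Q_le n hn)
    (by positivity : 0 ≤ ε / 2)
  rw [Real.mul_rpow (by norm_num) (by positivity), ← Real.rpow_natCast, ← Real.rpow_mul hn0.le,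
    show ((2 : ℕ) : ℝ) * (ε / 2) = ε by push_cast; ring] at h2
  rw [mul_assoc]
  gcongr

end Pool.Agent.Results.MP_d9fb17_nt.PointwiseBound
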